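import Pool.Agent.Helper99.EXC.GoalsE

/-!
# EXC, packet COK
-/

set_option autoImplicit false

open Finset MeasureTheory Filter
open scoped ENNReal

namespace Pool.Agent.Helper86.EXC

open Pool.Agent.Helper99.ERW Pool.Agent.Helper99.EXC

section

variable {f : ℕ → ℝ}

theorem cok_abs (h : ∑' i, ENNReal.ofReal |f i| ≠ ∞) : Summable (fun i => |f i|) := by
  have h1 := ENNReal.summable_toReal h
  refine h1.congr fun i => ?_
  exact ENNReal.toReal_ofReal (abs_nonneg _)

theorem cok_tsum (f : ℕ → ℝ) : (∑' i, ENNReal.ofReal |f i|).toReal = ∑' i, |f i| := by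
  rw [ENNReal.tsum_toReal_eq fun i => ENNReal.ofReal_ne_top]
  exact tsum_congr fun i => ENNReal.toReal_ofReal (abs_nonneg _)

theorem cok_sub (h : Summable (fun i => |f i|)) :
    (∑' i, ENNReal.ofReal (f i)).toReal - (∑' i, ENNReal.ofReal (-f i)).toReal = ∑' i, f i := by
  rw [ENNReal.tsum_toReal_eq fun i => ENNReal.ofReal_ne_top,
    ENNReal.tsum_toReal_eq fun i => ENNReal.ofReal_ne_top]
  have h1 : Summable (fun i => max (f i) 0) :=
    Summable.of_nonneg_of_le (fun i => le_max_right _ _)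
      (fun i => max_le (le_abs_self _) (abs_nonneg _)) h
  have h2 : Summable (fun i => max (-f i) 0) :=
    Summable.of_nonneg_of_le (fun i => le_max_right _ _)
      (fun i => max_le (neg_le_abs _) (abs_nonneg _)) h
  simp only [ENNReal.toReal_ofReal']
  rw [← h1.tsum_sub h2]
  exact tsum_congr fun i => max_zero_sub_max_neg_zero_eq_self _

end

theorem COK : COK_stmt := by
  intro a ω ha0 ha1 hω hb hfin
  have hsum : ∀ z, Summable (fun i => |2 * ω z (0, true) i - a|) := fun z =>
    cok_abs (f := fun i => 2 * ω z (0, true) i - a) (hfin z)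
  have hV : ∀ z, Vs a (ω z) = ∑' i, |2 * ω z (0, true) i - a| := fun z =>
    cok_tsum (fun i => 2 * ω z (0, true) i - a)
  have hT : ∀ z j, Ts a (ω z) j = ∑' i, |2 * ω z (0, true) (i + j) - a| := fun z j =>
    cok_tsum (fun i => 2 * ω z (0, true) (i + j) - a)
  have hS : ∀ z, Ss a (ω z) = ∑' i, (2 * ω z (0, true) i - a) := by
    intro z
    have h := cok_sub (f := fun i => 2 * ω z (0, true) i - a) (hsum z)
    simp only [neg_sub] at h
    exact h
  have hV1 : ∀ z j, ∑ i ∈ range j, |2 * ω z (0, true) i - a| + Ts a (ω z) j = Vs a (ω z) := by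
    intro z j
    rw [hT, hV]
    exact (hsum z).sum_add_tsum_nat_add j
  have hT0 : ∀ z j, 0 ≤ Ts a (ω z) j := fun z j => ENNReal.toReal_nonneg
  refine ⟨ha0, ha1, ?_, ?_, ?_, hT0, ?_, ?_, ?_⟩
  · intro z i
    exact mul_nonneg zero_le_two ((hω z i).1 _)
  · intro z i
    have h := (hω z i).2
    rw [Fintype.sum_prod_type, Fin.sum_univ_two, Fintype.sum_bool, Fintype.sum_bool] at h
    have h1 := hb z 0 i
    have h2 := (hω z i).1 (1, true)
    have h3 := (hω z i).1 (1, false)
    show 2 * ω z (0, true) i ≤ 1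
    linarith
  · intro z j
    have h := hV1 z j
    have h1 := hT0 z j
    show ∑ i ∈ range j, |2 * ω z (0, true) i - a| ≤ Vs a (ω z)
    linarith
  · intro z j
    have h := hV1 z j
    have h1 : 0 ≤ ∑ i ∈ range j, |2 * ω z (0, true) i - a| :=
      Finset.sum_nonneg fun i _ => abs_nonneg _
    show Ts a (ω z) j ≤ Vs a (ω z)
    linarith
  · intro z j j' hjj
    have h := hV1 z j
    have h' := hV1 z j'
    have h1 : ∑ i ∈ range j, |2 * ω z (0, true) i - a| ≤
        ∑ i ∈ range j', |2 * ω z (0, true) i - a| :=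
      Finset.sum_le_sum_of_subset_of_nonneg (Finset.range_mono hjj) fun i _ _ => abs_nonneg _
    show Ts a (ω z) j' ≤ Ts a (ω z) j
    linarith
  · intro z j
    have hs : Summable (fun i => 2 * ω z (0, true) i - a) := (hsum z).of_abs
    have h := hs.sum_add_tsum_nat_add j
    have h1 : Ss a (ω z) - Sm a (pw ω) z j = ∑' i, (2 * ω z (0, true) (i + j) - a) := by
      rw [hS]
      show ∑' i, (2 * ω z (0, true) i - a) - ∑ i ∈ range j, (2 * ω z (0, true) i - a) = _
      linarith
    show |Ss a (ω z) - Sm a (pw ω) z j| ≤ Ts a (ω z) j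
    rw [h1, hT]
    have h2 : Summable (fun i => ‖2 * ω z (0, true) (i + j) - a‖) :=
      (summable_nat_add_iff j).2 (hsum z)
    exact norm_tsum_le_tsum_norm h2

end Pool.Agent.Helper86.EXC
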